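import Pool.Agent.V5helper98.CN.Avg

/-!
# The size of the class number of almost all real quadratic fields

Let `h(d)` be the class number of `ℚ(√d)`.  For every `δ` between `0` and `1/2`, for all but
`O(X exp(-(log X)^(δ/16)))` of the squarefree `d ≤ X` one has `h(d) ≤ √d / (log X)^(3/2 - δ)`.  So this
holds for 100% of the squarefree `d` and for 100% of the primes, and the averages of `h(d)` over the
squarefree numbers and over the primes up to `X` are `O(√X / (log X)^(3/2 - δ))`.

Proof. (1) If `ε_D > B` for the discriminant `D` of `ℚ(√d)`, then `h(d) log B ≤ √D L(1, χ_D)`: the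
totally positive integers of the field with argument in a window of length `2 log B` generate
different ideals; this bounds the density of the principal ideals from below, and `h(d)` times this
density is `L(1, χ_D)`.  (2) By the theorem of the starting files on fundamental units (`LargeUnits`
of MP_070445_nt) `B = exp((log X)^(3/2 - δ/2))` is allowed for all but few `d`.  (3) The second moment
of `∑ χ_D(n) / n` over `y < n ≤ X^(3/4)`, `y = exp((log X)^η / 2)`, over all integers `D ≤ X`
(Polya-Vinogradov) shows that `L(1, χ_D) ≤ (log X)^η` for all but `X exp(-(log X)^η / 8)` of the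
fundamental discriminants.
-/

set_option autoImplicit false

namespace Pool.Agent.Results.MP_321647_nt.ClassNumberSize

open Filter Finset

open scoped Classical

/-- The class number of `ℚ(√d)`, the subfield of `ℝ` generated by `√d`: the number of the ideal
classes of its ring of integers. -/
noncomputable def h (d : ℕ) : ℕ :=
  Nat.card (ClassGroup (NumberField.RingOfIntegers
    (IntermediateField.adjoin ℚ {(√(d : ℝ) : ℝ)})))

theorem result (δ : ℝ) (hδ : 0 < δ) (hδ2 : δ < 1 / 2) :
    (∃ M : ℝ, 0 < M ∧ ∀ X : ℕ, 3 ≤ X →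
      (((Icc 2 X).filter (fun d : ℕ => Squarefree d ∧
        √(d : ℝ) / Real.log X ^ (3 / 2 - δ) < (h d : ℝ))).card : ℝ) ≤
          M * X * Real.exp (-(Real.log X ^ (δ / 16))) ∧
      ∑ d ∈ (Icc 2 X).filter Squarefree, (h d : ℝ) ≤
        M * (X * √(X : ℝ)) / Real.log X ^ (3 / 2 - δ) ∧
      ∑ p ∈ (Icc 2 X).filter Nat.Prime, (h p : ℝ) ≤
        M * (X * √(X : ℝ)) / Real.log X ^ (5 / 2 - δ)) ∧
    Tendsto (fun X : ℕ => (((Icc 2 X).filter (fun d : ℕ => Squarefree d ∧
        √(d : ℝ) / Real.log d ^ (3 / 2 - δ) < (h d : ℝ))).card : ℝ) / X) atTop (nhds 0) ∧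
    Tendsto (fun X : ℕ => (((Icc 2 X).filter (fun p : ℕ => p.Prime ∧
        √(p : ℝ) / Real.log p ^ (3 / 2 - δ) < (h p : ℝ))).card : ℝ) /
      ((Icc 2 X).filter Nat.Prime).card) atTop (nhds 0) := by
  have hh : ∀ d, h d = V5helper98.CN.hh d := fun d => rfl
  obtain ⟨M1, hM1, h1⟩ := V5helper98.CN.count_bad δ hδ hδ2
  obtain ⟨M2, hM2, h2⟩ := V5helper98.CN.sum_sub δ hδ hδ2
  obtain ⟨C, hC, h3⟩ := V5helper98.CN.primes_le
  obtain ⟨E, hE, h4⟩ := V5helper98.CN.exp_poly (δ / 16) (by positivity) 2
  -- the exceptional sets with `log d` in place of `log X`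
  have hsub : ∀ X d : ℕ, 2 ≤ d → d ≤ X → Squarefree d →
      √(d : ℝ) / Real.log d ^ (3 / 2 - δ) < (h d : ℝ) → d ∈ V5helper98.CN.bad δ X := by
    intro X d hd2 hdX hs hb
    rw [V5helper98.CN.bad, mem_filter, mem_Icc]
    refine ⟨⟨hd2, hdX⟩, hs, lt_of_le_of_lt ?_ hb⟩
    have hd1 : (1 : ℝ) < d := by exact_mod_cast (by omega : 1 < d)
    have hl : 0 < Real.log d := Real.log_pos hd1
    apply div_le_div_of_nonneg_left (Real.sqrt_nonneg _) (Real.rpow_pos_of_pos hl _)
    apply Real.rpow_le_rpow hl.le _ (by linarith)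
    apply Real.log_le_log (by linarith)
    exact_mod_cast hdX
  have htend : Tendsto (fun X : ℕ => 4 * M1 * E / Real.log X) atTop (nhds 0) :=
    (Real.tendsto_log_atTop.comp (tendsto_natCast_atTop_atTop (R := ℝ))).const_div_atTop _
  have hexp : ∀ X : ℕ, 3 ≤ X → Real.exp (-(Real.log (X : ℝ) ^ (δ / 16))) ≤
      E / Real.log X ^ 2 := by
    intro X hX
    have hL := V5helper98.CN.log_ge_one hX
    rw [le_div_iff₀ (by positivity), mul_comm]
    exact h4 _ hL
  refine ⟨⟨M1 + (1 + M2) * (1 + C), by positivity, fun X hX => ⟨?_, ?_, ?_⟩⟩, ?_, ?_⟩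
  · refine (h1 X hX).trans ?_
    apply mul_le_mul_of_nonneg_right _ (Real.exp_pos _).le
    apply mul_le_mul_of_nonneg_right _ (Nat.cast_nonneg X)
    have : 0 ≤ (1 + M2) * (1 + C) := by positivity
    linarith
  · have hL := V5helper98.CN.log_ge_one hX
    have hL0 : 0 < Real.log (X : ℝ) := by linarith
    have h5 := h2 X hX ((Icc 2 X).filter Squarefree) (fun d hd => by
      rw [mem_filter, mem_Icc] at hd
      exact ⟨hd.1.1, hd.1.2, hd.2⟩)
    refine h5.trans ?_
    have h6 : (((Icc 2 X).filter Squarefree).card : ℝ) ≤ X := by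
      have h7 : ((Icc 2 X).filter Squarefree).card ≤ (Icc 2 X).card := card_filter_le _ _
      have h8 : (Icc 2 X).card ≤ X := by
        rw [Nat.card_Icc]
        omega
      exact_mod_cast h7.trans h8
    have h7 := V5helper98.CN.pow_le_cube hL (s := 3 / 2 - δ) (by linarith)
      (A := M2 * (X * √(X : ℝ))) (by positivity)
    have h8 : (((Icc 2 X).filter Squarefree).card : ℝ) * √(X : ℝ) / Real.log X ^ (3 / 2 - δ) ≤
        X * √(X : ℝ) / Real.log X ^ (3 / 2 - δ) := by
      apply div_le_div_of_nonneg_right _ (Real.rpow_nonneg hL0.le _)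
      exact mul_le_mul_of_nonneg_right h6 (Real.sqrt_nonneg _)
    calc _ ≤ X * √(X : ℝ) / Real.log X ^ (3 / 2 - δ) +
          M2 * (X * √(X : ℝ)) / Real.log X ^ (3 / 2 - δ) := add_le_add h8 h7
      _ = (1 + M2) * (X * √(X : ℝ)) / Real.log X ^ (3 / 2 - δ) := by ring
      _ ≤ _ := by
          apply div_le_div_of_nonneg_right _ (Real.rpow_nonneg hL0.le _)
          apply mul_le_mul_of_nonneg_right _ (by positivity)
          nlinarith
  · have hL := V5helper98.CN.log_ge_one hX
    have hL0 : 0 < Real.log (X : ℝ) := by linarith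
    have h5 := h2 X hX ((Icc 2 X).filter Nat.Prime) (fun d hd => by
      rw [mem_filter, mem_Icc] at hd
      exact ⟨hd.1.1, hd.1.2, hd.2.prime.squarefree⟩)
    refine h5.trans ?_
    have h7 := V5helper98.CN.pow_le_cube hL (s := 5 / 2 - δ) (by linarith)
      (A := M2 * (X * √(X : ℝ))) (by positivity)
    have h8 : (((Icc 2 X).filter Nat.Prime).card : ℝ) * √(X : ℝ) / Real.log X ^ (3 / 2 - δ) ≤
        C * (X * √(X : ℝ)) / Real.log X ^ (5 / 2 - δ) := by
      have h9 : Real.log (X : ℝ) ^ (5 / 2 - δ) = Real.log X ^ (3 / 2 - δ) * Real.log X := by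
        rw [← Real.rpow_add_one hL0.ne']
        congr 1
        ring
      have h10 : 0 < Real.log (X : ℝ) ^ (3 / 2 - δ) := Real.rpow_pos_of_pos hL0 _
      calc (((Icc 2 X).filter Nat.Prime).card : ℝ) * √(X : ℝ) / Real.log X ^ (3 / 2 - δ) ≤
          (C * X / Real.log X) * √(X : ℝ) / Real.log X ^ (3 / 2 - δ) := by
            apply div_le_div_of_nonneg_right _ h10.le
            exact mul_le_mul_of_nonneg_right (h3 X hX) (Real.sqrt_nonneg _)
        _ = _ := by
            rw [h9]
            field_simp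
    calc _ ≤ C * (X * √(X : ℝ)) / Real.log X ^ (5 / 2 - δ) +
          M2 * (X * √(X : ℝ)) / Real.log X ^ (5 / 2 - δ) := add_le_add h8 h7
      _ = (C + M2) * (X * √(X : ℝ)) / Real.log X ^ (5 / 2 - δ) := by ring
      _ ≤ _ := by
          apply div_le_div_of_nonneg_right _ (Real.rpow_nonneg hL0.le _)
          apply mul_le_mul_of_nonneg_right _ (by positivity)
          nlinarith
  · refine squeeze_zero' (Eventually.of_forall fun X => by positivity) ?_ htend
    filter_upwards [eventually_ge_atTop 3] with X hX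
    have hL := V5helper98.CN.log_ge_one hX
    have hL0 : 0 < Real.log (X : ℝ) := by linarith
    have hXp : (0 : ℝ) < X := by exact_mod_cast (by omega : 0 < X)
    have h5 : (((Icc 2 X).filter (fun d : ℕ => Squarefree d ∧
        √(d : ℝ) / Real.log d ^ (3 / 2 - δ) < (h d : ℝ))).card : ℝ) ≤
        ((V5helper98.CN.bad δ X).card : ℝ) := by
      exact_mod_cast card_le_card (fun d hd => by
        rw [mem_filter, mem_Icc] at hd
        exact hsub X d hd.1.1 hd.1.2 hd.2.1 hd.2.2)
    rw [div_le_iff₀ hXp]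
    refine h5.trans ((h1 X hX).trans ?_)
    have h6 := hexp X hX
    have h7 : E / Real.log (X : ℝ) ^ 2 ≤ E / Real.log X := by
      apply div_le_div_of_nonneg_left hE.le hL0
      nlinarith
    calc M1 * X * Real.exp (-(Real.log (X : ℝ) ^ (δ / 16))) ≤ M1 * X * (E / Real.log X) :=
          mul_le_mul_of_nonneg_left (h6.trans h7) (by positivity)
      _ = M1 * E / Real.log X * X := by ring
      _ ≤ 4 * M1 * E / Real.log X * X := by
          apply mul_le_mul_of_nonneg_right _ hXp.le
          apply div_le_div_of_nonneg_right _ hL0.le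
          nlinarith [mul_pos hM1 hE]
  · refine squeeze_zero' (Eventually.of_forall fun X => by positivity) ?_ htend
    filter_upwards [eventually_ge_atTop 3, V5helper98.CN.primes_ge] with X hX hpr
    have hL := V5helper98.CN.log_ge_one hX
    have hL0 : 0 < Real.log (X : ℝ) := by linarith
    have hXp : (0 : ℝ) < X := by exact_mod_cast (by omega : 0 < X)
    have h5 : (((Icc 2 X).filter (fun p : ℕ => p.Prime ∧
        √(p : ℝ) / Real.log p ^ (3 / 2 - δ) < (h p : ℝ))).card : ℝ) ≤
        ((V5helper98.CN.bad δ X).card : ℝ) := by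
      exact_mod_cast card_le_card (fun d hd => by
        rw [mem_filter, mem_Icc] at hd
        exact hsub X d hd.1.1 hd.1.2 hd.2.1.prime.squarefree hd.2.2)
    have hcp : (0 : ℝ) < ((Icc 2 X).filter Nat.Prime).card :=
      lt_of_lt_of_le (by positivity) hpr
    rw [div_le_iff₀ hcp]
    refine h5.trans ((h1 X hX).trans ?_)
    have h6 := hexp X hX
    calc M1 * X * Real.exp (-(Real.log (X : ℝ) ^ (δ / 16))) ≤ M1 * X * (E / Real.log X ^ 2) :=
          mul_le_mul_of_nonneg_left h6 (by positivity)
      _ = 4 * M1 * E / Real.log X * (X / (4 * Real.log X)) := by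
          field_simp
      _ ≤ _ := mul_le_mul_of_nonneg_left hpr (by positivity)

end Pool.Agent.Results.MP_321647_nt.ClassNumberSize
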