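import Pool.Agent.V5helper47.EV.F

/-!
# Unique factorisation in `ℚ(√d)`, `d ≡ 2, 3 (mod 4)`, with a unit of size `O(d)`

Let `d ≡ 2` or `3 (mod 4)` be squarefree and suppose that the ring of integers of `ℚ(√d)` is a
unique factorisation domain. If some unit `u + v √d > 1` of norm one has `u ≤ 10 ^ 8 * d`, then
`d` is one of 100 explicit numbers, the largest being 3947.

Equivalently (up to a bounded factor): unique factorisation forces a solution of
`x ^ 2 - d y ^ 2 = ± 2`, and the theorem determines all `d` for which the smallest solution has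
`y ≤ 10000`. For every fixed `y` this is a union of infinite families of fields; `y = 1` gives the
fields `d = n ^ 2 ± 2`.
-/

namespace Pool.Agent.Results.MP_321647_nt.EvenShort

theorem result (d : ℕ) (hd : Squarefree d) (hd4 : d % 4 = 2 ∨ d % 4 = 3)
    (K : Type*) [Field K] [NumberField K] (hK : Module.finrank ℚ K = 2)
    (z : K) (hz : z ^ 2 = (d : K))
    (hufd : UniqueFactorizationMonoid (NumberField.RingOfIntegers K))
    (u v : ℕ) (hv : 0 < v) (hu : u ^ 2 = d * v ^ 2 + 1) (hub : u ≤ 10 ^ 8 * d) :
    d ∈ ([2, 3, 6, 7, 11, 14, 19, 22, 23, 31, 38, 43, 46, 47, 59, 62, 67, 71, 83, 86, 94, 103, 107,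
      118, 127, 131, 134, 139, 151, 158, 163, 166, 167, 179, 191, 199, 206, 227, 239, 251, 262,
      263, 278, 283, 302, 307, 311, 347, 367, 383, 398, 419, 422, 431, 446, 467, 479, 502, 503,
      542, 563, 566, 587, 622, 647, 662, 683, 734, 743, 758, 787, 827, 838, 863, 878, 887, 947,
      983, 998, 1142, 1151, 1163, 1187, 1238, 1262, 1286, 1307, 1319, 1382, 1427, 1487, 1502,
      1718, 1931, 2063, 2078, 2243, 2351, 3167, 3947] : List ℕ) := by
  have hcl : NumberField.classNumber K = 1 := by
    rw [NumberField.classNumber_eq_one_iff]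
    exact IsPrincipalIdealRing.of_isDedekindDomain_of_uniqueFactorizationMonoid _
  rcases Nat.lt_or_ge d 3 with h | h
  · have : d = 2 := by omega
    subst this
    simp
  · exact List.mem_cons_of_mem _ (Pool.Agent.V5helper47.EV.main_unit
      Pool.Agent.V5helper47.EV.full hd hd4 h hv hu (hub.trans (by norm_num)) hK hz hcl)

end Pool.Agent.Results.MP_321647_nt.EvenShort
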