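import Pool.Agent.V5helper47.OD.F

/-!
# Unique factorisation in `ℚ(√d)`, `d = B ^ 2 + 4 A ^ 2`, when `A x² + B x y - A y² = ± 1` has a
solution with a short side

Let `d ≡ 1 (mod 4)` be squarefree with `d = B ^ 2 + 4 A ^ 2`, and let `x`, `y` be integers with
`A x ^ 2 + B x y - A y ^ 2 = ± 1` and `min |x| |y| ≤ 34`. If the ring of integers of `ℚ(√d)` is a
unique factorisation domain, then `d` is one of 77 explicit numbers, the largest being 10853.

With `U = x ^ 2 + y ^ 2` and `T + 2 i = (B + 2 A i) (x + i y) ^ 2` (up to signs) such solutions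
are the solutions of `T ^ 2 + 4 = d U ^ 2`, i.e. the units of norm `-1`. For every prime
`d ≡ 1 (mod 4)` there are such `A`, `B`, `x`, `y`. For every fixed value of the shorter side the
fields form families with two free parameters.
-/

namespace Pool.Agent.Results.MP_321647_nt.OddShort

theorem result (d : ℕ) (hd : Squarefree d) (hd4 : d % 4 = 1) (hd1 : 1 < d)
    (A B x y : ℤ) (hAB : (d : ℤ) = B ^ 2 + 4 * A ^ 2)
    (h : A * x ^ 2 + B * x * y - A * y ^ 2 = 1 ∨ A * x ^ 2 + B * x * y - A * y ^ 2 = -1)
    (hmin : min |x| |y| ≤ 34)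
    (K : Type*) [Field K] [NumberField K] (hK : Module.finrank ℚ K = 2)
    (z : K) (hz : z ^ 2 = (d : K))
    (hufd : UniqueFactorizationMonoid (NumberField.RingOfIntegers K)) :
    d ∈ ([5, 13, 17, 29, 37, 41, 53, 61, 73, 89, 97, 101, 109, 113, 137, 149, 157, 173, 181, 197,
      233, 269, 277, 293, 317, 349, 353, 373, 389, 397, 461, 509, 557, 613, 653, 661, 677, 701,
      773, 797, 821, 853, 877, 941, 997, 1013, 1061, 1109, 1181, 1277, 1493, 1613, 1637, 1877,
      1949, 1973, 1997, 2309, 2333, 2357, 2477, 2693, 2957, 3533, 3677, 3797, 3917, 3989, 4157,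
      4253, 4373, 4397, 4517, 4973, 5309, 9173, 10853] : List ℕ) := by
  have hcl : NumberField.classNumber K = 1 := by
    rw [NumberField.classNumber_eq_one_iff]
    exact IsPrincipalIdealRing.of_isDedekindDomain_of_uniqueFactorizationMonoid _
  exact Pool.Agent.V5helper47.OD.main_odd Pool.Agent.V5helper47.OD.full hd hd4 hd1 hAB h
    (by exact_mod_cast hmin) hK hz hcl

end Pool.Agent.Results.MP_321647_nt.OddShort
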