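import Pool.Agent.V5helper47.CN.F

/-!
# Unique factorisation in `ℚ(√(ab))` when `a x² - b y² = ± 4` has a solution with a short side

Let `d ≡ 1 (mod 4)` be squarefree, `d = a b` with `a, b > 1`, and suppose that
`a x ^ 2 - b y ^ 2 = ± 4` has a solution in positive integers with `min x y ≤ 34` and
`min x y ≠ 2`. If the ring of integers of `ℚ(√d)` is a unique factorisation domain, then `d` is
one of 51 explicit numbers.

For every fixed value of the shorter side the fields form families with two free parameters
(length of the period bounded, two unbounded partial quotients); `min x y = 1` contains the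
families `(a n) ^ 2 + 4 a` and `(a n) ^ 2 - 4 a`.
-/

namespace Pool.Agent.Results.MP_321647_nt.ShortSide

theorem result (d a b x y : ℕ) (hd : Squarefree d) (hd4 : d % 4 = 1)
    (hab : d = a * b) (ha : 1 < a) (hb : 1 < b) (hx : 0 < x) (hy : 0 < y)
    (h : (a : ℤ) * x ^ 2 - b * y ^ 2 = 4 ∨ (a : ℤ) * x ^ 2 - b * y ^ 2 = -4)
    (hmin : min x y ≤ 34) (h2 : min x y ≠ 2)
    (K : Type*) [Field K] [NumberField K] (hK : Module.finrank ℚ K = 2)
    (z : K) (hz : z ^ 2 = (d : K))
    (hufd : UniqueFactorizationMonoid (NumberField.RingOfIntegers K)) :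
    d ∈ ([21, 57, 69, 77, 93, 129, 133, 161, 213, 237, 253, 301, 309, 341, 381, 413, 437, 453,
      501, 517, 581, 597, 717, 749, 789, 813, 869, 893, 917, 933, 1077, 1133, 1253, 1317, 1349,
      1397, 1437, 1797, 1893, 2453, 2573, 2757, 2933, 3053, 3093, 3317, 3437, 4413, 5277, 6677,
      6797] : List ℕ) := by
  have hcl : NumberField.classNumber K = 1 := by
    rw [NumberField.classNumber_eq_one_iff]
    exact IsPrincipalIdealRing.of_isDedekindDomain_of_uniqueFactorizationMonoid _
  have hs : Pool.Agent.V5helper47.CN.So a b x y := by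
    refine ⟨hx, hy, ?_⟩
    rcases h with h | h
    · left
      have : (a * x ^ 2 : ℤ) = b * y ^ 2 + 4 := by linarith
      exact_mod_cast this
    · right
      have : (a * x ^ 2 + 4 : ℤ) = b * y ^ 2 := by linarith
      exact_mod_cast this
  exact Pool.Agent.V5helper47.CN.main_half Pool.Agent.V5helper47.CN.all_ok hd hd4 hab ha hb hs
    hmin h2 hK hz hcl

end Pool.Agent.Results.MP_321647_nt.ShortSide
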